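import Pool.Agent.helper84.VN.Spec4n

set_option autoImplicit false

/-!
# Row vn:SW4 of MP_07c750_an: signs and shadowing
-/

open scoped MatrixGroups ContDiff Topology UpperHalfPlane ComplexConjugate ENNReal
open UpperHalfPlane MeasureTheory Filter Set

namespace Pool.Agent.VN

open Pool.Agent.RS Pool.Agent.VQ
open Pool.Agent.VQE (nm)

noncomputable section

theorem SW4_nm (x : SL(2, ℝ)) : |x.1 0 0 - x.1 1 1| ≤ 2 * nm x := by
  have h1 : |x.1 0 0 - 1| ≤ nm x := le_max_of_le_left (le_max_left _ _)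
  have h2 : |x.1 1 1 - 1| ≤ nm x := le_max_of_le_right (le_max_right _ _)
  have h3 : x.1 0 0 - x.1 1 1 = (x.1 0 0 - 1) - (x.1 1 1 - 1) := by ring
  rw [h3]
  refine (abs_sub _ _).trans ?_
  linarith

theorem SW4_sin {θ : ℝ} (h : |θ| ≤ 1) : |θ| ≤ 2 * |Real.sin θ| := by
  have h1 : ∀ x : ℝ, 0 ≤ x → x ≤ 1 → x ≤ 2 * Real.sin x := by
    intro x hx0 hx1
    have h2 := Real.mul_le_sin hx0 (hx1.trans (by linarith [Real.pi_gt_three]))
    have h3 : 1 / 2 ≤ 2 / Real.pi := by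
      rw [div_le_div_iff₀ (by norm_num) Real.pi_pos]
      linarith [Real.pi_le_four]
    have h4 : 1 / 2 * x ≤ 2 / Real.pi * x := mul_le_mul_of_nonneg_right h3 hx0
    linarith
  rcases le_total 0 θ with h0 | h0
  · rw [abs_of_nonneg h0] at h ⊢
    have := h1 θ h0 h
    have h5 := le_abs_self (Real.sin θ)
    linarith
  · rw [abs_of_nonpos h0] at h ⊢
    have := h1 (-θ) (by linarith) h
    rw [Real.sin_neg] at this
    have h5 := neg_abs_le (Real.sin θ)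
    linarith

/-- dependent choice -/
theorem SW4_seq (n : ℕ) (I : ℕ → ℝ → Prop) (R : ℕ → ℝ → ℝ → Prop) (s₀ : ℝ) (h0 : I 0 s₀)
    (h : ∀ i < n, ∀ s, I i s → ∃ s', I (i + 1) s' ∧ R i s s') :
    ∃ S : ℕ → ℝ, S 0 = s₀ ∧ (∀ i ≤ n, I i (S i)) ∧ ∀ i < n, R i (S i) (S (i + 1)) := by
  have h' : ∀ i s, ∃ s', i < n → I i s → I (i + 1) s' ∧ R i s s' := by
    intro i s
    by_cases h1 : i < n ∧ I i s
    · obtain ⟨s', hs'⟩ := h i h1.1 s h1.2
      exact ⟨s', fun _ _ => hs'⟩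
    · exact ⟨0, fun a b => absurd ⟨a, b⟩ h1⟩
  choose f hf using h'
  let S : ℕ → ℝ := fun i => Nat.rec s₀ (fun j s => f j s) i
  have hS : ∀ i, S (i + 1) = f i (S i) := fun i => rfl
  have hI : ∀ i, i ≤ n → I i (S i) := by
    intro i
    induction i with
    | zero => intro _; exact h0
    | succ j ih =>
      intro hj
      rw [hS j]
      exact (hf j (S j) (by omega) (ih (by omega))).1
  refine ⟨S, rfl, hI, fun i hi => ?_⟩
  rw [hS i]
  exact (hf i (S i) hi (hI i hi.le)).2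

theorem SW4_fin {K K1 K3 K4 μ ε θ S : ℝ} {n : ℕ} {N J W T : ℕ → ℝ} (hμ : 0 < μ) (hε : 0 < ε) (hn : 1 ≤ n) (hN0 : |θ| ≤ N 0) (hT0 : T 0 = 0) (hTn : T n = S)
    (p1 : 0 < K1) (p3 : 0 < K3) (l3 : K3 ≤ K) (l10 : K1 * K4 ≤ K) (l11 : K3 * (K4 + 1) ≤ K) (l12 : K4 ≤ K) (hK0 : 0 < K)
    (hQS : ∀ (N Q : ℕ → ℝ), 1 ≤ n → 0 ≤ ε → (∀ i ≤ n, 0 ≤ N i) →
      (∀ i < n, N (i + 1) ≤ K3 * (N i + ε) ∧ Q i + N i ^ 2 / K3 - K3 * (ε * N i + ε ^ 2) ≤ Q (i + 1)) → 0 ≤ Q 0 → Q n ≤ μ * (∑ i ∈ Finset.range (n + 1), N i ^ 2) + K3 * ((n + 1) * ε ^ 2) →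
      (∀ i ≤ n, N i ≤ K4 * ((n + 1) * ε)) ∧ ∑ i ∈ Finset.range (n + 1), N i ≤ K4 * ((n + 1) * ε))
    (hNnn : ∀ i, 0 ≤ N i) (h1 : ∀ i < n, |T (i + 1) - T i| ≤ K3 * (N i + ε)) (h2 : ∀ i < n, N (i + 1) ≤ K3 * (N i + ε))
    (h3 : ∀ i < n, J i * W i + N i ^ 2 / K3 - K3 * (ε * N i + ε ^ 2) ≤ J (i + 1) * W (i + 1))
    (h4 : ∀ i < n, ∀ σ : ℝ, (σ = 1 ∨ σ = -1) → 0 ≤ σ * J i → 0 ≤ σ * W i → K3 * ε ≤ N i →
        0 ≤ σ * J (i + 1) ∧ 0 ≤ σ * W (i + 1) ∧ N i / K3 ≤ σ * J (i + 1) ∧ (1 + 1 / K3) * N i ≤ N (i + 1))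
    (hJ0 : J 0 = 0) (hW0 : W 0 = 2 * Real.sin θ) (hθ1 : |θ| ≤ 1) (y nz : ℝ) (hnz : nz ≤ K1 * N n) (hJn : y = 0 → J n = 0) (hρz : ∀ σ : ℝ, 0 < σ * J n → σ * y < 0) :
    (y = 0 → nz ≤ K * ((n + 1) * ε) ∧ |S| ≤ K * ((n + 1) * ε) ∧ |θ| ≤ K * ((n + 1) * ε)) ∧ (K * ((n + 1) * ε) ≤ |θ| → θ * y < 0) := by
  have he0 : 0 < ((n : ℝ) + 1) * ε := by positivity
  have hn0 : (0 : ℝ) ≤ n := Nat.cast_nonneg n
  have hεn : ε ≤ ((n : ℝ) + 1) * ε := by nlinarith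
  constructor
  · intro hy
    have hQ := hQS N (fun i => J i * W i) hn hε.le (fun i _ => hNnn i) (fun i hi => ⟨h2 i hi, h3 i hi⟩) (by
        show 0 ≤ J 0 * W 0
        rw [hJ0, zero_mul]) (by
        show J n * W n ≤ _
        rw [hJn hy, zero_mul]
        have h1 : 0 ≤ ∑ i ∈ Finset.range (n + 1), N i ^ 2 := Finset.sum_nonneg fun i _ => sq_nonneg _
        positivity)
    obtain ⟨hQ1, hQ2⟩ := hQ
    refine ⟨?_, ?_, ?_⟩
    · have h2 := hQ1 n le_rfl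
      have h3 : K1 * N n ≤ K1 * (K4 * (((n : ℝ) + 1) * ε)) := mul_le_mul_of_nonneg_left h2 p1.le
      have h4 : K1 * K4 * (((n : ℝ) + 1) * ε) ≤ K * (((n : ℝ) + 1) * ε) := mul_le_mul_of_nonneg_right l10 he0.le
      have e : K1 * (K4 * (((n : ℝ) + 1) * ε)) = K1 * K4 * (((n : ℝ) + 1) * ε) := by ring
      linarith
    · rw [← hTn]
      have h1 : |T n| ≤ ∑ i ∈ Finset.range n, K3 * (N i + ε) := by
        have h2 : T n = ∑ i ∈ Finset.range n, (T (i + 1) - T i) := by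
          rw [Finset.sum_range_sub, hT0, sub_zero]
        rw [h2]
        refine (Finset.abs_sum_le_sum_abs _ _).trans (Finset.sum_le_sum fun i hi => ?_)
        exact h1 i (Finset.mem_range.1 hi)
      have h2 : ∑ i ∈ Finset.range n, K3 * (N i + ε) = K3 * (∑ i ∈ Finset.range n, N i + n * ε) := by
        rw [← Finset.mul_sum, Finset.sum_add_distrib, Finset.sum_const, Finset.card_range, nsmul_eq_mul]
      have h3 : ∑ i ∈ Finset.range n, N i ≤ K4 * (((n : ℝ) + 1) * ε) := by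
        refine le_trans ?_ hQ2
        rw [Finset.sum_range_succ]
        have := hNnn n
        linarith
      rw [h2] at h1
      have h4 : ∑ i ∈ Finset.range n, N i + n * ε ≤ (K4 + 1) * (((n : ℝ) + 1) * ε) := by
        have h7 : (n : ℝ) * ε ≤ ((n : ℝ) + 1) * ε := by linarith
        have h8 : (K4 + 1) * (((n : ℝ) + 1) * ε) = K4 * (((n : ℝ) + 1) * ε) + ((n : ℝ) + 1) * ε := by ring
        rw [h8]
        exact add_le_add h3 h7
      have h5 : K3 * (∑ i ∈ Finset.range n, N i + n * ε) ≤ K3 * ((K4 + 1) * (((n : ℝ) + 1) * ε)) := mul_le_mul_of_nonneg_left h4 p3.le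
      have h6 : K3 * (K4 + 1) * (((n : ℝ) + 1) * ε) ≤ K * (((n : ℝ) + 1) * ε) := mul_le_mul_of_nonneg_right l11 he0.le
      have e : K3 * ((K4 + 1) * (((n : ℝ) + 1) * ε)) = K3 * (K4 + 1) * (((n : ℝ) + 1) * ε) := by ring
      linarith
    · have h1 := hN0.trans (hQ1 0 (Nat.zero_le n))
      have h2 : K4 * (((n : ℝ) + 1) * ε) ≤ K * (((n : ℝ) + 1) * ε) := mul_le_mul_of_nonneg_right l12 he0.le
      linarith
  · intro hKθ
    have hθ0 : 0 < |θ| := lt_of_lt_of_le (mul_pos hK0 he0) hKθ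
    have hK3θ : K3 * ε ≤ |θ| := by
      refine le_trans ?_ hKθ
      have h1 : K3 * ε ≤ K * ε := mul_le_mul_of_nonneg_right l3 hε.le
      have h2 : K * ε ≤ K * (((n : ℝ) + 1) * ε) := mul_le_mul_of_nonneg_left hεn hK0.le
      linarith
    obtain ⟨σ, hσ, hσθ⟩ : ∃ σ : ℝ, (σ = 1 ∨ σ = -1) ∧ θ = σ * |θ| := by
      rcases le_total 0 θ with h | h
      · exact ⟨1, Or.inl rfl, by rw [abs_of_nonneg h, one_mul]⟩
      · exact ⟨-1, Or.inr rfl, by rw [abs_of_nonpos h]; ring⟩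
    have hσsin : 0 ≤ σ * Real.sin θ := by
      have hθπ : |θ| ≤ Real.pi := by linarith [Real.pi_gt_three]
      have hpos := Real.sin_nonneg_of_nonneg_of_le_pi (abs_nonneg θ) hθπ
      rcases hσ with h | h
      · rw [h, one_mul] at hσθ
        rw [h, one_mul, hσθ]
        exact hpos
      · have e : Real.sin θ = -Real.sin |θ| := by
          have e2 : θ = -|θ| := by rw [h] at hσθ; linarith
          conv_lhs => rw [e2]
          exact Real.sin_neg _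
        rw [h, e]
        linarith
    have hind : ∀ i ≤ n, 0 ≤ σ * J i ∧ 0 ≤ σ * W i ∧ |θ| ≤ N i := by
      intro i
      induction i with
      | zero =>
        intro _
        refine ⟨by rw [hJ0, mul_zero], ?_, hN0⟩
        rw [hW0]
        linarith
      | succ j ih =>
        intro hj
        obtain ⟨a1, a2, a3⟩ := ih (by omega)
        obtain ⟨b1, b2, b3, b4⟩ := h4 j (by omega) σ hσ a1 a2 (hK3θ.trans a3)
        refine ⟨b1, b2, a3.trans (le_trans ?_ b4)⟩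
        have h1 := hNnn j
        have h2 : 0 ≤ 1 / K3 * N j := by positivity
        rw [add_mul, one_mul]
        exact le_add_of_nonneg_right h2
    obtain ⟨m, rfl⟩ : ∃ m, n = m + 1 := ⟨n - 1, by omega⟩
    obtain ⟨a1, a2, a3⟩ := hind m (by omega)
    obtain ⟨b1, b2, b3, b4⟩ := h4 m (by omega) σ hσ a1 a2 (hK3θ.trans a3)
    have h1 : 0 < N m / K3 := by
      have : 0 < N m := lt_of_lt_of_le hθ0 a3
      positivity
    have h3 := hρz σ (lt_of_lt_of_le h1 b3)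
    have e : θ * y = |θ| * (σ * y) := by
      conv_lhs => rw [hσθ]
      ring
    rw [e]
    exact mul_neg_of_pos_of_neg hθ0 h3

theorem SW4_proof (hCN4 : CN4_stmt) (hUR4 : UR4_stmt) (hUS4 : US4_stmt) (hQS4 : QS4_stmt) : SW4_stmt := by
  intro k C
  obtain ⟨K1, hK1, hCN⟩ := hCN4 k C
  obtain ⟨K2, hK2, hUR⟩ := hUR4 k C
  obtain ⟨K3, hK3, hUS⟩ := hUS4 k C
  obtain ⟨μ, K4, hμ, hK4, hQS⟩ := hQS4 K3 hK3
  have p1 : 0 < K1 := by linarith
  have p2 : 0 < K2 := by linarith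
  have p3 : 0 < K3 := by linarith
  have p4 : 0 < K4 := by linarith
  obtain ⟨K, hKdef⟩ : ∃ K : ℝ, K = K1 + K2 + K3 + 2 * (K1 * K2) + 2 * (K2 * K3) + 3 * (K1 ^ 2 * K2) + 3 * (K1 * K2 * K3) + 4 * (K1 ^ 2 * K2 * K3) + 6 * (K1 ^ 2 * K2 ^ 2 * K3) +
    K1 * K4 + K3 * (K4 + 1) + K4 := ⟨_, rfl⟩
  have q1 : 0 < K1 * K2 := by positivity
  have q2 : 0 < K2 * K3 := by positivity
  have q3 : 0 < K1 ^ 2 * K2 := by positivity
  have q4 : 0 < K1 * K2 * K3 := by positivity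
  have q5 : 0 < K1 ^ 2 * K2 * K3 := by positivity
  have q6 : 0 < K1 ^ 2 * K2 ^ 2 * K3 := by positivity
  have q7 : 0 < K1 * K4 := by positivity
  have q8 : 0 < K3 * (K4 + 1) := by positivity
  have hK : 1 ≤ K := by linarith
  have hK0 : 0 < K := by linarith
  have r1 : 1 ≤ K1 ^ 2 * K2 := one_le_mul_of_one_le_of_one_le (one_le_pow₀ hK1) hK2
  have r2 : 1 ≤ K1 ^ 2 * K3 := one_le_mul_of_one_le_of_one_le (one_le_pow₀ hK1) hK3
  have l1 : K1 ≤ K := by linarith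
  have l2 : K2 ≤ K := by linarith
  have l3 : K3 ≤ K := by linarith
  have l4 : 2 * (K1 * K2) ≤ K := by linarith
  have l5 : 2 * (K2 * K3) ≤ K := by linarith
  have l6 : 3 * (K1 ^ 2 * K2) ≤ K := by linarith
  have l7 : 3 * (K1 * K2 * K3) ≤ K := by linarith
  have l8 : 4 * (K1 ^ 2 * K2 * K3) ≤ K := by linarith
  have l9 : 6 * (K1 ^ 2 * K2 ^ 2 * K3) ≤ K := by linarith
  have l10 : K1 * K4 ≤ K := by linarith
  have l11 : K3 * (K4 + 1) ≤ K := by linarith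
  have l12 : K4 ≤ K := by linarith
  clear hKdef
  refine ⟨K, hK, ?_⟩
  intro D hD t ε θ S n w w' z ht1 ht2 hε hn hKε hw hw' hEn hnm h0 hθ hS hz hzc
  -- the small number `a = 1/K`
  obtain ⟨a, ha⟩ : ∃ a : ℝ, a = 1 / K := ⟨_, rfl⟩
  have ha0 : 0 < a := by rw [ha]; positivity
  have hKa : K * a = 1 := by rw [ha]; field_simp
  have hsm : ∀ b : ℝ, b ≤ K → b * a ≤ 1 := fun b hb => by
    rw [← hKa]
    exact mul_le_mul_of_nonneg_right hb ha0.le
  have hn0 : (0 : ℝ) ≤ n := Nat.cast_nonneg n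
  have hεn : ε ≤ ((n : ℝ) + 1) * ε := by nlinarith
  have hεa : ((n : ℝ) + 1) * ε ≤ a := by
    have h1 : K * (((n : ℝ) + 1) * ε) ≤ K * a := by rw [hKa]; exact hKε
    exact le_of_mul_le_mul_left h1 hK0
  have hεa' : ε ≤ a := hεn.trans hεa
  rw [← ha] at hθ hS
  have hnm' : ∀ i ≤ n, nm ((w i).1⁻¹ * (w' i).1) ≤ a := fun i hi => by rw [ha]; exact hnm i hi
  have hE : ∀ i ≤ n, |(w i).2| ≤ k := fun i hi => by
    have := hw.en i hi
    have e : 4 * k / 4 = k := by ring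
    rwa [e] at this
  have hE' : ∀ i ≤ n, |(w' i).2| ≤ k := fun i hi => by
    have := hw'.en i hi
    have e : 4 * k / 4 = k := by ring
    rwa [e] at this
  have haK1 : a ≤ 1 / K1 := by
    rw [le_div_iff₀ p1, mul_comm]
    exact hsm K1 l1
  have haK2 : a ≤ 1 / K2 := by
    rw [le_div_iff₀ p2, mul_comm]
    exact hsm K2 l2
  have ha1 : a ≤ 1 := by
    have := hsm 1 hK
    linarith
  -- uniqueness of the shifts
  have hf : ∀ i ≤ n, ∀ s s' : ℝ, |s| ≤ 1 / K2 → |s'| ≤ 1 / K2 → |s' - s| ≤ K2 * |((zz D w w' s' i).1 0 0 - (zz D w w' s' i).1 1 1) - ((zz D w w' s i).1 0 0 - (zz D w w' s i).1 1 1)| := by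
    intro i hi s s' hs hs'
    have h1 := (hUR D hD (w' i).2 (w i).1 (w' i).1 _ (hE' i hi) rfl ((hnm' i hi).trans haK2)).2
    have key : ∀ u v : ℝ, |u| ≤ 1 / K2 → |v| ≤ 1 / K2 → u ≤ v → v - u ≤ K2 * |((zz D w w' v i).1 0 0 - (zz D w w' v i).1 1 1) - ((zz D w w' u i).1 0 0 - (zz D w w' u i).1 1 1)| := by
      intro u v hu hv huv
      have h2 := h1 u v (abs_le.1 hu).1 huv (abs_le.1 hv).2
      rw [div_le_iff₀ p2] at h2
      refine h2.trans ?_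
      rw [mul_comm]
      exact mul_le_mul_of_nonneg_left (le_abs_self _) p2.le
    rcases le_total s s' with h | h
    · rw [abs_of_nonneg (by linarith)]
      exact key s s' hs hs' h
    · rw [abs_sub_comm s' s, abs_of_nonneg (by linarith : 0 ≤ s - s'), abs_sub_comm ((zz D w w' s' i).1 0 0 - (zz D w w' s' i).1 1 1)]
      exact key s' s hs' hs h
  have hz0 : ∀ i, zz D w w' 0 i = (w i).1⁻¹ * (w' i).1 := fun i => by
    unfold zz
    rw [hD.zero]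
  -- a centred difference is small
  have hsmall : ∀ i ≤ n, ∀ s : ℝ, |s| ≤ 1 / K2 → (zz D w w' s i).1 0 0 = (zz D w w' s i).1 1 1 → |s| ≤ 2 * (K2 * a) ∧ nm (zz D w w' s i) ≤ 3 * (K1 * K2 * a) ∧
      NX D.U (w i).2 (w i).1 (zz D w w' s i) ≤ 3 * (K1 ^ 2 * K2 * a) ∧ nm (zz D w w' s i) ≤ K1 * NX D.U (w i).2 (w i).1 (zz D w w' s i) := by
    intro i hi s hs hc
    have h1 := hf i hi 0 s (by rw [abs_zero]; positivity) hs
    have h2 : |((zz D w w' s i).1 0 0 - (zz D w w' s i).1 1 1) - ((zz D w w' 0 i).1 0 0 - (zz D w w' 0 i).1 1 1)| ≤ 2 * a := by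
      rw [hc, sub_self, zero_sub, abs_neg, hz0]
      exact (SW4_nm _).trans (by linarith [hnm' i hi])
    rw [sub_zero] at h1
    have h3 : |s| ≤ 2 * (K2 * a) := by
      refine h1.trans ((mul_le_mul_of_nonneg_left h2 p2.le).trans (le_of_eq (by ring)))
    have h4 : |s| ≤ 1 / K1 := by
      rw [le_div_iff₀ p1]
      have h5 := hsm (2 * (K1 * K2)) l4
      have h6 : |s| * K1 ≤ 2 * (K2 * a) * K1 := mul_le_mul_of_nonneg_right h3 p1.le
      have e : 2 * (K2 * a) * K1 = 2 * (K1 * K2) * a := by ring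
      linarith
    have h5 := ((hCN D hD).2.2 (w i).2 (w' i).2 s (w i).1 ((w i).1⁻¹ * (w' i).1) (zz D w w' s i) (hE i hi) (hE' i hi) ((hnm' i hi).trans haK1) h4 (by
      unfold zz
      rw [mul_inv_cancel_left])).2.2
    have h6 : nm (zz D w w' s i) ≤ 3 * (K1 * K2 * a) := by
      have h7 : nm ((w i).1⁻¹ * (w' i).1) + |s| ≤ a + 2 * (K2 * a) := add_le_add (hnm' i hi) h3
      have h8 : a ≤ K2 * a := le_mul_of_one_le_left ha0.le hK2
      have h9 : K1 * (nm ((w i).1⁻¹ * (w' i).1) + |s|) ≤ K1 * (3 * (K2 * a)) := mul_le_mul_of_nonneg_left (by linarith) p1.le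
      refine h5.trans (h9.trans (le_of_eq (by ring)))
    have h7 : nm (zz D w w' s i) ≤ 1 / K1 := by
      rw [le_div_iff₀ p1]
      have h8 := hsm (3 * (K1 ^ 2 * K2)) l6
      have h9 : nm (zz D w w' s i) * K1 ≤ 3 * (K1 * K2 * a) * K1 := mul_le_mul_of_nonneg_right h6 p1.le
      have e : 3 * (K1 * K2 * a) * K1 = 3 * (K1 ^ 2 * K2) * a := by ring
      linarith
    obtain ⟨h8, h9⟩ := (hCN D hD).1 (w i).2 (w i).1 (zz D w w' s i) (hE i hi) h7
    refine ⟨h3, h6, ?_, ?_⟩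
    · refine h8.trans ((mul_le_mul_of_nonneg_left h6 p1.le).trans (le_of_eq (by ring)))
    · rw [hc, sub_self, abs_zero, add_zero] at h9
      exact h9
  -- the sequence of the shifts
  obtain ⟨T, hT0, hTI, hTR⟩ := SW4_seq n (fun i s => |s| ≤ 1 / K2 ∧ (zz D w w' s i).1 0 0 = (zz D w w' s i).1 1 1 ∧ 0 < (zz D w w' s i).1 0 0)
    (fun i s s' => |s' - s| ≤ K3 * (NX D.U (w i).2 (w i).1 (zz D w w' s i) + ε) ∧
      NX D.U (w (i + 1)).2 (w (i + 1)).1 (zz D w w' s' (i + 1)) ≤ K3 * (NX D.U (w i).2 (w i).1 (zz D w w' s i) + ε) ∧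
      JX D.U (w i).2 (w i).1 (zz D w w' s i) * WX D.U (w i).2 (w i).1 (zz D w w' s i) + NX D.U (w i).2 (w i).1 (zz D w w' s i) ^ 2 / K3 -
        K3 * (ε * NX D.U (w i).2 (w i).1 (zz D w w' s i) + ε ^ 2) ≤ JX D.U (w (i + 1)).2 (w (i + 1)).1 (zz D w w' s' (i + 1)) * WX D.U (w (i + 1)).2 (w (i + 1)).1 (zz D w w' s' (i + 1)) ∧
      ∀ σ : ℝ, (σ = 1 ∨ σ = -1) → 0 ≤ σ * JX D.U (w i).2 (w i).1 (zz D w w' s i) → 0 ≤ σ * WX D.U (w i).2 (w i).1 (zz D w w' s i) → K3 * ε ≤ NX D.U (w i).2 (w i).1 (zz D w w' s i) →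
        0 ≤ σ * JX D.U (w (i + 1)).2 (w (i + 1)).1 (zz D w w' s' (i + 1)) ∧ 0 ≤ σ * WX D.U (w (i + 1)).2 (w (i + 1)).1 (zz D w w' s' (i + 1)) ∧
        NX D.U (w i).2 (w i).1 (zz D w w' s i) / K3 ≤ σ * JX D.U (w (i + 1)).2 (w (i + 1)).1 (zz D w w' s' (i + 1)) ∧
        (1 + 1 / K3) * NX D.U (w i).2 (w i).1 (zz D w w' s i) ≤ NX D.U (w (i + 1)).2 (w (i + 1)).1 (zz D w w' s' (i + 1))) 0
    (by
      refine ⟨by rw [abs_zero]; positivity, ?_, ?_⟩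
      · rw [hz0, h0]
        simp [kM]
      · rw [hz0, h0]
        have : (kM θ).1 0 0 = Real.cos θ := by simp [kM]
        rw [this]
        refine Real.cos_pos_of_mem_Ioo ⟨?_, ?_⟩
        · linarith [(abs_le.1 hθ).1, Real.pi_gt_three]
        · linarith [(abs_le.1 hθ).2, Real.pi_gt_three])
    (by
      rintro i hi s ⟨i1, i2, i3⟩
      obtain ⟨m1, m2, m3, m4⟩ := hsmall i hi.le s i1 i2
      have hN0 : 0 ≤ NX D.U (w i).2 (w i).1 (zz D w w' s i) := add_nonneg (abs_nonneg _) (abs_nonneg _)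
      have u1 : |s| ≤ 1 / K3 := by
        rw [le_div_iff₀ p3]
        have h5 := hsm (2 * (K2 * K3)) l5
        have h6 : |s| * K3 ≤ 2 * (K2 * a) * K3 := mul_le_mul_of_nonneg_right m1 p3.le
        have e : 2 * (K2 * a) * K3 = 2 * (K2 * K3) * a := by ring
        linarith
      have u2 : nm (zz D w w' s i) ≤ 1 / K3 := by
        rw [le_div_iff₀ p3]
        have h8 := hsm (3 * (K1 * K2 * K3)) l7
        have h9 : nm (zz D w w' s i) * K3 ≤ 3 * (K1 * K2 * a) * K3 := mul_le_mul_of_nonneg_right m2 p3.le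
        have e : 3 * (K1 * K2 * a) * K3 = 3 * (K1 * K2 * K3) * a := by ring
        linarith
      have hk12 : a ≤ K1 ^ 2 * K2 * a := le_mul_of_one_le_left ha0.le r1
      have u3 : K3 * (NX D.U (w i).2 (w i).1 (zz D w w' s i) + ε) ≤ 4 * (K1 ^ 2 * K2 * K3) * a := by
        have h8 : NX D.U (w i).2 (w i).1 (zz D w w' s i) + ε ≤ 4 * (K1 ^ 2 * K2 * a) := by linarith
        refine (mul_le_mul_of_nonneg_left h8 p3.le).trans (le_of_eq (by ring))
      have u4 : K3 * (NX D.U (w i).2 (w i).1 (zz D w w' s i) + ε) ≤ 1 := u3.trans (hsm _ l8)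
      obtain ⟨S1, J1, W1, z1, v1, v2, v3, v4, v5, v6, v7, v8, v9, v10, v11⟩ := hUS D hD t ε s (w i).2 (w' i).2 (w (i + 1)).2 (w' (i + 1)).2 _ _ _ (w i).1 (w' i).1 (w (i + 1)).1 (w' (i + 1)).1
        (zz D w w' s i) ht1 ht2 hε.le u1 (hE i hi.le) (hE' i hi.le) (hE (i + 1) (by omega)) (hE' (i + 1) (by omega)) (hEn i hi.le) (hw.st i hi).2 (hw'.st i hi).2 (hw.st i hi).1 (hw'.st i hi).1
        rfl i2 i3 u2 rfl rfl rfl u4
      have v1' : z1 = zz D w w' S1 (i + 1) := v1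
      rw [v1'] at v3 v4 v5 v6 v7
      refine ⟨S1, ⟨?_, v3, v4⟩, v2, ?_, ?_, ?_⟩
      · have h1 : |S1| ≤ |S1 - s| + |s| := by
          have := abs_add_le (S1 - s) s
          rwa [sub_add_cancel] at this
        rw [le_div_iff₀ p2]
        have h2 : |S1| ≤ 4 * (K1 ^ 2 * K2 * K3) * a + 2 * (K2 * a) := h1.trans (add_le_add (v2.trans u3) m1)
        have h3 : 2 * (K2 * a) ≤ 2 * (K1 ^ 2 * K2 * K3) * a := by
          have e2 : 0 ≤ K2 * a := by positivity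
          have e3 : K2 * a ≤ K1 ^ 2 * K3 * (K2 * a) := le_mul_of_one_le_left e2 r2
          have e4 : 2 * (K1 ^ 2 * K2 * K3) * a = 2 * (K1 ^ 2 * K3 * (K2 * a)) := by ring
          rw [e4]
          linarith
        have h4 := hsm (6 * (K1 ^ 2 * K2 ^ 2 * K3)) l9
        have h5 : |S1| * K2 ≤ (6 * (K1 ^ 2 * K2 * K3) * a) * K2 := mul_le_mul_of_nonneg_right (by linarith) p2.le
        have e : (6 * (K1 ^ 2 * K2 * K3) * a) * K2 = 6 * (K1 ^ 2 * K2 ^ 2 * K3) * a := by ring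
        linarith
      · show |JX D.U (w (i + 1)).2 (w (i + 1)).1 (zz D w w' S1 (i + 1))| + |WX D.U (w (i + 1)).2 (w (i + 1)).1 (zz D w w' S1 (i + 1))| ≤ _
        rw [← v5, ← v6]
        exact v8
      · rw [← v5, ← v6]
        exact v10
      · intro σ hσ hJ hW hN
        have := v11 σ hσ hJ hW hN
        rw [← v5, ← v6]
        refine ⟨this.1, this.2.1, this.2.2.1, ?_⟩
        show _ ≤ |JX D.U (w (i + 1)).2 (w (i + 1)).1 (zz D w w' S1 (i + 1))| + |WX D.U (w (i + 1)).2 (w (i + 1)).1 (zz D w w' S1 (i + 1))|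
        rw [← v5, ← v6]
        exact this.2.2.2)
  -- the last shift
  have hTn : T n = S := by
    obtain ⟨i1, i2, i3⟩ := hTI n le_rfl
    have h1 := hf n le_rfl S (T n) (hS.trans haK2) i1
    rw [i2, ← hz, hzc, sub_self, sub_self, sub_self, abs_zero, mul_zero] at h1
    have := abs_nonpos_iff.1 h1
    linarith
  have hzn : zz D w w' (T n) n = z := by rw [hTn, hz]
  -- the start
  have hJ0 : JX D.U (w 0).2 (w 0).1 (zz D w w' (T 0) 0) = 0 := by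
    rw [hT0, hz0, h0]
    simp [JX, Jc, kM]
  have hW0 : WX D.U (w 0).2 (w 0).1 (zz D w w' (T 0) 0) = 2 * Real.sin θ := by
    rw [hT0, hz0, h0]
    simp [WX, Wc, kM]
    ring
  have hN0 : |θ| ≤ NX D.U (w 0).2 (w 0).1 (zz D w w' (T 0) 0) := by
    unfold NX
    rw [hJ0, hW0, abs_zero, zero_add, abs_mul, abs_of_pos (by norm_num : (0 : ℝ) < 2)]
    exact SW4_sin (hθ.trans ha1)
  have hρ : 0 < rho D.U (w n).2 (w n).1 := by
    have := (hD.ro (w n).2 (w n).1 (hE n le_rfl)).1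
    have h1 : 0 < 1 / C := by
      have := hD.C1
      positivity
    linarith
  have hJn : JX D.U (w n).2 (w n).1 (zz D w w' (T n) n) = -(rho D.U (w n).2 (w n).1 * (z.1 0 1 + z.1 1 0)) := by
    rw [hzn]
    rfl
  have hnz : nm z ≤ K1 * NX D.U (w n).2 (w n).1 (zz D w w' (T n) n) := by
    obtain ⟨i1, i2, i3⟩ := hTI n le_rfl
    have h1 := (hsmall n le_rfl (T n) i1 i2).2.2.2
    rw [hzn] at h1 ⊢
    exact h1
  obtain ⟨N, hN⟩ : ∃ N : ℕ → ℝ, ∀ i, NX D.U (w i).2 (w i).1 (zz D w w' (T i) i) = N i := ⟨fun i => _, fun i => rfl⟩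
  obtain ⟨J, hJ⟩ : ∃ J : ℕ → ℝ, ∀ i, JX D.U (w i).2 (w i).1 (zz D w w' (T i) i) = J i := ⟨fun i => _, fun i => rfl⟩
  obtain ⟨W, hW⟩ : ∃ W : ℕ → ℝ, ∀ i, WX D.U (w i).2 (w i).1 (zz D w w' (T i) i) = W i := ⟨fun i => _, fun i => rfl⟩
  have hNnn : ∀ i, 0 ≤ N i := fun i => by
    rw [← hN i]
    exact add_nonneg (abs_nonneg _) (abs_nonneg _)
  simp only [hN, hJ, hW] at hTR hJ0 hW0 hN0 hJn hnz
  have hρz : ∀ σ : ℝ, 0 < σ * J n → σ * (z.1 0 1 + z.1 1 0) < 0 := by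
    intro σ h2
    rw [hJn] at h2
    have e : σ * -(rho D.U (w n).2 (w n).1 * (z.1 0 1 + z.1 1 0)) = -(rho D.U (w n).2 (w n).1 * (σ * (z.1 0 1 + z.1 1 0))) := by ring
    rw [e] at h2
    by_contra hcon
    push Not at hcon
    have := mul_nonneg hρ.le hcon
    linarith
  have hJn0 : z.1 0 1 + z.1 1 0 = 0 → J n = 0 := fun h => by rw [hJn, h, mul_zero, neg_zero]
  exact SW4_fin hμ hε hn hN0 hT0 hTn p1 p3 l3 l10 l11 l12 hK0 (fun N Q => hQS n ε N Q) hNnn (fun i hi => (hTR i hi).1) (fun i hi => (hTR i hi).2.1) (fun i hi => (hTR i hi).2.2.1)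
    (fun i hi => (hTR i hi).2.2.2) hJ0 hW0 (hθ.trans ha1) (z.1 0 1 + z.1 1 0) (nm z) hnz hJn0 hρz

end

end Pool.Agent.VN
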